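import Pool.Agent.Y347.CO.Sens
import Pool.Agent.Y220.CO.Tail

set_option autoImplicit false

/-!
# Circuits of constant depth over an arbitrary finite alphabet
-/

namespace Pool.Agent.R740.AC

open Finset Function Pool.Agent

/-- A circuit whose input is a word of `n` letters of the alphabet `α`. `val v x` is the bit at the
node `v` if the input is `x`. An element `(u, b)` of a set `J` of wires is a wire from the node `u`,
and it is true if the bit at `u` is `b` (so negations are free). Every node is an arbitrary test of
one letter, or a gate of one of the following kinds: an arbitrary gate with at most `w` wires (its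
value is a function of the set of its true wires), an AND gate, an OR gate. The depth grows along
the wires. -/
structure Circ (w n : ℕ) (α : Type) where
  Node : Type
  [finite : Finite Node]
  val : Node → (Fin n → α) → Bool
  depth : Node → ℕ
  rule : ∀ v : Node, (∃ (i : Fin n) (f : α → Bool), ∀ x, val v x = f (x i)) ∨
    ∃ J : Finset (Node × Bool), (∀ u ∈ J, depth u.1 < depth v) ∧
      ((J.card ≤ w ∧ ∃ F : Finset (Node × Bool) → Bool,
          ∀ x, val v x = F (J.filter fun u => val u.1 x = u.2)) ∨
        (∀ x, val v x = decide (∀ u ∈ J, val u.1 x = u.2)) ∨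
        (∀ x, val v x = decide (∃ u ∈ J, val u.1 x = u.2)))

section
variable {w n : ℕ} {α : Type}

/-- the point of the cube between `x` and `y` with coordinates `b` -/
def mix (x y : Fin n → α) (b : Fin n → Bool) : Fin n → α := fun i => if b i then y i else x i

theorem mix_mix (x y : Fin n → α) (b : Fin n → Bool) : mix (mix x y b) (mix y x b) b = x := by
  funext i
  simp only [mix]
  cases b i <;> simp

theorem mix_flip (x y : Fin n → α) (b : Fin n → Bool) (i : Fin n) :
    mix x y (update b i (!(b i))) = update (mix x y b) i (mix y x b i) := by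
  funext j
  rcases eq_or_ne j i with rfl | hj
  · simp only [mix, update_self]
    cases b j <;> simp
  · simp only [mix, update_of_ne hj]

open Classical in
/-- the restriction of a circuit to a cube -/
noncomputable def Circ.cube (C : Circ w n α) (x y : Fin n → α) :
    Y603.MS.Circuit (max w 1) n where
  Node := C.Node ⊕ Fin n
  finite := haveI := C.finite; inferInstance
  val := fun v b => Sum.elim (fun u => C.val u (mix x y b)) (fun i => b i) v
  depth := Sum.elim (fun u => C.depth u + 1) (fun _ => 0)
  leak := ∅
  rule := by
    rintro (u | i)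
    · right; right
      rcases C.rule u with ⟨i, f, h⟩ | ⟨J, hJ, h⟩
      · refine ⟨{(Sum.inr i, true)}, by simp, Or.inl ⟨by simp,
          fun S => if (Sum.inr i, true) ∈ S then f (y i) else f (x i), fun b => ?_⟩⟩
        simp only [Sum.elim_inl, h, mix, mem_filter, mem_singleton, Sum.elim_inr, true_and]
        cases b i <;> simp
      · let e : C.Node × Bool ↪ (C.Node ⊕ Fin n) × Bool :=
          ⟨fun q => (Sum.inl q.1, q.2), fun q q' hq => by
            have h1 := congrArg Prod.fst hq
            have h2 := congrArg Prod.snd hq
            simp only [Sum.inl.injEq] at h1 h2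
            exact Prod.ext h1 h2⟩
        refine ⟨J.map e, ?_, ?_⟩
        · intro q hq
          obtain ⟨q', hq', rfl⟩ := mem_map.1 hq
          simpa [e] using hJ q' hq'
        · rcases h with ⟨hc, F, hF⟩ | h | h
          · left
            refine ⟨by rw [card_map]; exact hc.trans (le_max_left _ _),
              fun S => F (J.filter fun q => e q ∈ S), fun b => ?_⟩
            show C.val u (mix x y b) = _
            rw [hF]
            congr 1
            ext q
            simp only [mem_filter, mem_map_of_mem]
            constructor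
            · rintro ⟨h1, h2⟩
              exact ⟨h1, mem_map_of_mem e h1, h2⟩
            · rintro ⟨h1, _, h2⟩
              exact ⟨h1, h2⟩
          · right; left
            intro b
            show C.val u (mix x y b) = _
            rw [h]
            congr 1
            apply propext
            constructor
            · intro h1 q hq
              obtain ⟨q', hq', rfl⟩ := mem_map.1 hq
              exact h1 q' hq'
            · intro h1 q hq
              exact h1 (e q) (mem_map_of_mem e hq)
          · right; right
            intro b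
            show C.val u (mix x y b) = _
            rw [h]
            congr 1
            apply propext
            constructor
            · rintro ⟨q, hq, h1⟩
              exact ⟨e q, mem_map_of_mem e hq, h1⟩
            · rintro ⟨q, hq, h1⟩
              obtain ⟨q', hq', rfl⟩ := mem_map.1 hq
              exact ⟨q', hq', h1⟩
    · right; left
      exact ⟨i, fun b => rfl⟩

/-- the sensitive coordinates of `f` at `x` in the direction `y` -/
def sns (f : (Fin n → α) → Bool) (x y : Fin n → α) : Finset (Fin n) :=
  univ.filter fun i => f (update x i (y i)) ≠ f x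

theorem sns_card_le (f : (Fin n → α) → Bool) (x y : Fin n → α) : (sns f x y).card ≤ n := by
  refine (card_filter_le _ _).trans ?_
  rw [card_univ, Fintype.card_fin]

theorem sens_cube (C : Circ w n α) (o : C.Node) (x y : Fin n → α) (b : Fin n → Bool) :
    Y347.CO.sens ((C.cube x y).val (Sum.inl o)) b = sns (C.val o) (mix x y b) (mix y x b) := by
  ext i
  simp only [Y347.CO.sens, sns, mem_filter, mem_univ, true_and]
  show C.val o (mix x y (update b i (!(b i)))) ≠ C.val o (mix x y b) ↔ _
  rw [mix_flip]

/-- the tail factor -/
noncomputable def tau (w ℓ d : ℕ) (κ : ℝ) : ℝ :=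
  (2 : ℝ) ^ (2 * ℓ + 4 - κ / ((d + 1 : ℕ) * Y347.CO.KK (d + 1) (max w 1) ℓ) : ℝ)

theorem tau_pos (w ℓ d : ℕ) (κ : ℝ) : 0 < tau w ℓ d κ := by
  unfold tau
  positivity

variable [Fintype α]

open Classical in
/-- pairs with many sensitive coordinates are rare -/
theorem tail (C : Circ w n α) {ℓ d : ℕ} (hℓ : 1 ≤ ℓ) (hs : Nat.card C.Node + n ≤ 2 ^ ℓ)
    (hd : ∀ v, C.depth v ≤ d) (o : C.Node) (κ : ℝ) :
    ((univ.filter fun q : (Fin n → α) × (Fin n → α) =>
      κ ≤ ((sns (C.val o) q.1 q.2).card : ℝ)).card : ℝ) ≤
      (Fintype.card α : ℝ) ^ n * (Fintype.card α : ℝ) ^ n * tau w ℓ d κ := by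
  classical
  set P : (Fin n → α) × (Fin n → α) → Prop := fun q => κ ≤ ((sns (C.val o) q.1 q.2).card : ℝ)
    with hP
  -- the bound on each cube
  have hcube : ∀ x y : Fin n → α,
      ((univ.filter fun b : Fin n → Bool => P (mix x y b, mix y x b)).card : ℝ) ≤
        2 ^ n * tau w ℓ d κ := by
    intro x y
    haveI := C.finite
    have hcard : Nat.card (C.cube x y).Node ≤ 2 ^ ℓ := by
      show Nat.card (C.Node ⊕ Fin n) ≤ 2 ^ ℓ
      rw [Nat.card_sum, Nat.card_fin]
      exact hs
    refine Y347.CO.tail_real Y220.CO.done (C.cube x y) (ℓ := ℓ) (d := d + 1) rfl hℓ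
      (le_max_right _ _) (by omega) hcard ?_ (Sum.inl o) κ _ ?_
    · rintro (v | i)
      · show C.depth v + 1 ≤ d + 1
        exact Nat.succ_le_succ (hd v)
      · exact Nat.zero_le _
    · intro b hb
      rw [sens_cube]
      exact (mem_filter.1 hb).2
  -- double counting
  have hswap : ∀ b : Fin n → Bool,
      (univ.filter fun q : (Fin n → α) × (Fin n → α) => P (mix q.1 q.2 b, mix q.2 q.1 b)).card =
        (univ.filter P).card := by
    intro b
    have hinv : ∀ q : (Fin n → α) × (Fin n → α),
        (mix (mix q.1 q.2 b) (mix q.2 q.1 b) b, mix (mix q.2 q.1 b) (mix q.1 q.2 b) b) = q := by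
      intro q
      rw [mix_mix, mix_mix]
    refine card_bij' (fun q _ => (mix q.1 q.2 b, mix q.2 q.1 b))
      (fun q _ => (mix q.1 q.2 b, mix q.2 q.1 b)) ?_ ?_ (fun q _ => hinv q) (fun q _ => hinv q)
    · intro q hq
      rw [mem_filter] at hq ⊢
      exact ⟨mem_univ _, hq.2⟩
    · intro q hq
      rw [mem_filter] at hq ⊢
      refine ⟨mem_univ _, ?_⟩
      show P _
      rw [hinv q]
      exact hq.2
  have hsum : (∑ q : (Fin n → α) × (Fin n → α),
      (univ.filter fun b : Fin n → Bool => P (mix q.1 q.2 b, mix q.2 q.1 b)).card) =
        2 ^ n * (univ.filter P).card := by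
    have h1 : ∀ q : (Fin n → α) × (Fin n → α),
        (univ.filter fun b : Fin n → Bool => P (mix q.1 q.2 b, mix q.2 q.1 b)).card =
          ∑ b : Fin n → Bool, if P (mix q.1 q.2 b, mix q.2 q.1 b) then 1 else 0 := by
      intro q
      rw [card_filter]
    rw [sum_congr rfl fun q _ => h1 q, sum_comm]
    have h2 : ∀ b : Fin n → Bool, (∑ q : (Fin n → α) × (Fin n → α),
        if P (mix q.1 q.2 b, mix q.2 q.1 b) then 1 else 0) = (univ.filter P).card := by
      intro b
      rw [← hswap b, card_filter]
    rw [sum_congr rfl fun b _ => h2 b, sum_const, card_univ, Fintype.card_fun, Fintype.card_bool,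
      Fintype.card_fin, smul_eq_mul]
  have hsum' : (2 : ℝ) ^ n * ((univ.filter P).card : ℝ) ≤
      (Fintype.card α : ℝ) ^ n * (Fintype.card α : ℝ) ^ n * (2 ^ n * tau w ℓ d κ) := by
    calc (2 : ℝ) ^ n * ((univ.filter P).card : ℝ)
        = ((∑ q : (Fin n → α) × (Fin n → α),
          (univ.filter fun b : Fin n → Bool => P (mix q.1 q.2 b, mix q.2 q.1 b)).card : ℕ) : ℝ) := by
          rw [hsum]
          push_cast
          rfl
      _ = ∑ q : (Fin n → α) × (Fin n → α),
          ((univ.filter fun b : Fin n → Bool => P (mix q.1 q.2 b, mix q.2 q.1 b)).card : ℝ) := by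
          push_cast
          rfl
      _ ≤ ∑ _q : (Fin n → α) × (Fin n → α), (2 ^ n * tau w ℓ d κ) :=
          sum_le_sum fun q _ => hcube q.1 q.2
      _ = _ := by
          rw [sum_const, card_univ, Fintype.card_prod, Fintype.card_fun, Fintype.card_fin,
            nsmul_eq_mul]
          push_cast
          ring
  have h2n : (0 : ℝ) < 2 ^ n := by positivity
  have := tau_pos w ℓ d κ
  by_contra hcon
  push Not at hcon
  have h3 := mul_lt_mul_of_pos_left hcon h2n
  nlinarith

end

end Pool.Agent.R740.AC
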