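import Pool.Agent.R740.AC.Rel

set_option autoImplicit false

/-!
# Circuits that read the digits of an integer
-/

namespace Pool.Agent.R740.AC

open Finset Function

section
variable {n b : ℕ}

/-- the integer with the digits `x` in base `b` -/
def num (x : Fin n → Fin b) : ℕ := ∑ i, (x i : ℕ) * b ^ (i : ℕ)

theorem num_eq (x : Fin n → Fin b) : num x = (finFunctionFinEquiv x : ℕ) := by
  rw [finFunctionFinEquiv_apply]
  rfl

theorem num_inj {x y : Fin n → Fin b} (h : num x = num y) : x = y := by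
  rw [num_eq, num_eq] at h
  exact finFunctionFinEquiv.injective (Fin.ext h)

theorem num_lt (x : Fin n → Fin b) : num x < b ^ n := by
  rw [num_eq]
  exact (finFunctionFinEquiv x).2

theorem exists_num {a : ℕ} (h : a < b ^ n) : ∃ x : Fin n → Fin b, num x = a := by
  refine ⟨finFunctionFinEquiv.symm ⟨a, h⟩, ?_⟩
  rw [num_eq, Equiv.apply_symm_apply]

/-- the block of digits number `a` -/
def block (m : ℕ) (a : Fin (n / m)) : Finset (Fin n) :=
  univ.filter fun i => (a : ℕ) * m ≤ i ∧ (i : ℕ) < a * m + m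

theorem block_lt {m : ℕ} (a : Fin (n / m)) (i : Fin m) : (a : ℕ) * m + i < n := by
  have h1 : ((a : ℕ) + 1) * m ≤ n := by
    have : (a : ℕ) + 1 ≤ n / m := a.2
    exact (Nat.mul_le_mul_right m this).trans (Nat.div_mul_le_self n m)
  have h2 := i.2
  rw [Nat.add_mul, one_mul] at h1
  omega

/-- the embedding of a block -/
def blockEmb (m : ℕ) (a : Fin (n / m)) : Fin m ↪ Fin n :=
  ⟨fun i => ⟨a * m + i, block_lt a i⟩, fun i j h => by
    have := congrArg Fin.val h
    simp only at this
    exact Fin.ext (by omega)⟩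

theorem block_eq (m : ℕ) (a : Fin (n / m)) : block m a = univ.map (blockEmb m a) := by
  ext i
  simp only [block, mem_filter, mem_univ, true_and, mem_map, blockEmb]
  constructor
  · rintro ⟨h1, h2⟩
    refine ⟨⟨(i : ℕ) - a * m, by omega⟩, Fin.ext ?_⟩
    show (a : ℕ) * m + ((i : ℕ) - a * m) = i
    omega
  · rintro ⟨j, rfl⟩
    have := j.2
    constructor
    · exact Nat.le_add_right _ _
    · show (a : ℕ) * m + (j : ℕ) < a * m + m
      omega

theorem card_block (m : ℕ) (a : Fin (n / m)) : (block m a).card = m := by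
  rw [block_eq, card_map, card_univ, Fintype.card_fin]

theorem block_disjoint (m : ℕ) (a c : Fin (n / m)) (h : a ≠ c) :
    Disjoint (block m a) (block m c) := by
  rw [disjoint_left]
  intro i hi hi'
  simp only [block, mem_filter, mem_univ, true_and] at hi hi'
  apply h
  apply Fin.ext
  by_contra hne
  rcases Nat.lt_or_gt_of_ne hne with hlt | hlt
  · have : ((a : ℕ) + 1) * m ≤ c * m := Nat.mul_le_mul_right m hlt
    rw [Nat.add_mul, one_mul] at this
    omega
  · have : ((c : ℕ) + 1) * m ≤ a * m := Nat.mul_le_mul_right m hlt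
    rw [Nat.add_mul, one_mul] at this
    omega

/-- on a coset of a block, `num` is an affine function of the digits of the block -/
theorem num_coset (m : ℕ) (a : Fin (n / m)) {x z : Fin n → Fin b}
    (h : z ∈ coset (block m a) x) :
    num z = (∑ i ∈ (block m a)ᶜ, (x i : ℕ) * b ^ (i : ℕ)) +
      b ^ ((a : ℕ) * m) * num (fun i => z (blockEmb m a i)) := by
  rw [mem_coset] at h
  have h1 : num z = ∑ i ∈ (block m a)ᶜ, (z i : ℕ) * b ^ (i : ℕ) +
      ∑ i ∈ block m a, (z i : ℕ) * b ^ (i : ℕ) := by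
    rw [num, sum_compl_add_sum]
  rw [h1]
  congr 1
  · refine sum_congr rfl fun i hi => ?_
    rw [h i (mem_compl.1 hi)]
  · rw [block_eq, sum_map, num, mul_sum]
    refine sum_congr rfl fun i _ => ?_
    show (z (blockEmb m a i) : ℕ) * b ^ ((a : ℕ) * m + (i : ℕ)) = _
    rw [pow_add]
    ring

open Classical in
/-- a set of integers without 3-term progressions on a coset of a block -/
theorem coset_roth (A : Finset ℕ) (hA : ThreeAPFree (A : Set ℕ)) (hb : 0 < b) (m : ℕ)
    (a : Fin (n / m)) (x : Fin n → Fin b) :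
    (((univ.filter fun z : Fin n → Fin b => num z ∈ A).filter
      fun z => z ∈ coset (block m a) x).card) ≤ rothNumberNat (b ^ m) := by
  set S := (univ.filter fun z : Fin n → Fin b => num z ∈ A).filter
    fun z => z ∈ coset (block m a) x with hS
  have hS' : ∀ z ∈ S, num z ∈ A ∧ z ∈ coset (block m a) x := by
    intro z hz
    rw [hS, mem_filter, mem_filter] at hz
    exact ⟨hz.1.2, hz.2⟩
  set t : (Fin n → Fin b) → ℕ := fun z => num fun i => z (blockEmb m a i) with ht
  have hinj : Set.InjOn t S := by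
    intro z hz z' hz' h
    apply num_inj
    rw [num_coset m a (hS' z hz).2, num_coset m a (hS' z' hz').2]
    have : num (fun i => z (blockEmb m a i)) = num (fun i => z' (blockEmb m a i)) := h
    rw [this]
  rw [← card_image_of_injOn hinj]
  refine ThreeAPFree.le_rothNumberNat _ ?_ ?_ rfl
  · intro u hu v hv w hw huvw
    simp only [coe_image, Set.mem_image, mem_coe] at hu hv hw
    obtain ⟨z1, h1, rfl⟩ := hu
    obtain ⟨z2, h2, rfl⟩ := hv
    obtain ⟨z3, h3, rfl⟩ := hw
    have e1 := num_coset m a (hS' z1 h1).2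
    have e2 := num_coset m a (hS' z2 h2).2
    have e3 := num_coset m a (hS' z3 h3).2
    have e := hA (hS' z1 h1).1 (hS' z2 h2).1 (hS' z3 h3).1 (by
      rw [e1, e2, e3]
      have := congrArg (fun r => b ^ ((a : ℕ) * m) * r) huvw
      simp only [mul_add] at this
      have h' : b ^ ((a : ℕ) * m) * num (fun i => z1 (blockEmb m a i)) +
          b ^ ((a : ℕ) * m) * num (fun i => z3 (blockEmb m a i)) =
          b ^ ((a : ℕ) * m) * num (fun i => z2 (blockEmb m a i)) +
          b ^ ((a : ℕ) * m) * num (fun i => z2 (blockEmb m a i)) := this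
      omega)
    rw [num_inj e]
  · intro u hu
    rw [mem_image] at hu
    obtain ⟨z, _, rfl⟩ := hu
    exact num_lt _

end

/-- the bound for sets decided by circuits on the digits -/
theorem digits_bound {w n b d ℓ : ℕ} (hw : 1 ≤ w) (hb : 3 ≤ b) (hn : 1 ≤ n)
    (C : Circ w n (Fin b)) (hs : Nat.card C.Node + n ≤ 2 ^ ℓ) (hd : ∀ v, C.depth v ≤ d)
    (o : C.Node) (A : Finset ℕ) (hA : ThreeAPFree (A : Set ℕ)) (hAn : A ⊆ range (b ^ n))
    (hC : ∀ x, C.val o x = true ↔ num x ∈ A) :
    (A.card : ℝ) ≤ 2 * b * (b : ℝ) ^ n *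
      (2 : ℝ) ^ (2 * ℓ + 4 - n / (2 * b * (d + 1) * ((2 : ℝ) ^ (d + 10) * (w * ℓ)) ^ (d + 1)) : ℝ) := by
  classical
  haveI : NeZero b := ⟨by omega⟩
  have hℓ : 1 ≤ ℓ := by
    rcases Nat.eq_zero_or_pos ℓ with h | h
    · exfalso
      rw [h, pow_zero] at hs
      haveI := C.finite
      haveI : Nonempty C.Node := ⟨o⟩
      have : 0 < Nat.card C.Node := Nat.card_pos
      omega
    · exact h
  have hlow := theoremA C hℓ hn hs hd o (by
    intro x hx i
    by_contra hcon
    push Not at hcon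
    have hall : ∀ c : Fin b, num (update x i c) ∈ A := by
      intro c
      rw [← hC]
      have := hcon c
      simpa using this
    have hnum : ∀ c : Fin b, num (update x i c) =
        (∑ j ∈ univ.erase i, (x j : ℕ) * b ^ (j : ℕ)) + (c : ℕ) * b ^ (i : ℕ) := by
      intro c
      rw [num, ← sum_erase_add _ _ (mem_univ i), update_self]
      congr 1
      refine sum_congr rfl fun j hj => ?_
      rw [update_of_ne (ne_of_mem_erase hj)]
    have h0 := hall ⟨0, by omega⟩
    have h1 := hall ⟨1, by omega⟩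
    have h2 := hall ⟨2, by omega⟩
    have e := hA h0 h1 h2 (by
      rw [hnum, hnum, hnum]
      show _ + 0 * _ + (_ + 2 * _) = _ + 1 * _ + (_ + 1 * _)
      ring)
    rw [hnum, hnum] at e
    have e' : 0 * b ^ (i : ℕ) = 1 * b ^ (i : ℕ) := Nat.add_left_cancel e
    rw [zero_mul, one_mul] at e'
    have : 0 < b ^ (i : ℕ) := by positivity
    omega)
  have hcard : A.card = (univ.filter fun x : Fin n → Fin b => C.val o x = true).card := by
    symm
    apply card_bij fun x _ => num x
    · intro x hx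
      rw [mem_filter] at hx
      exact (hC x).1 hx.2
    · intro x _ y _ h
      exact num_inj h
    · intro a ha
      obtain ⟨x, hx⟩ := exists_num (mem_range.1 (hAn ha))
      refine ⟨x, ?_, hx⟩
      rw [mem_filter, hC, hx]
      exact ⟨mem_univ _, ha⟩
  rw [hcard]
  refine hlow.trans_eq ?_
  rw [Fintype.card_fin, tau, Y347.CO.KK, max_eq_left hw]
  congr 2
  push_cast
  have hb0 : (0 : ℝ) < b := by
    have : 0 < b := by omega
    exact_mod_cast this
  have hℓ0 : (0 : ℝ) < ℓ := by exact_mod_cast hℓ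
  have hw0 : (0 : ℝ) < w := by exact_mod_cast hw
  rw [div_div]
  congr 2
  have e10 : d + 1 + 9 = d + 10 := by ring
  rw [e10]
  ring

open Classical in
/-- sets without progressions and sets decided by circuits on the digits are nearly disjoint -/
theorem digits_relative {w b d : ℕ} (hw : 1 ≤ w) (hb : 2 ≤ b) {ε Λ : ℝ} (hε : 0 < ε)
    (hε1 : ε ≤ 1) (hΛ : 0 ≤ Λ) :
    ∃ c : ℝ, 0 < c ∧ ∀ (n ℓ : ℕ) (A : Finset ℕ), 1 ≤ n → ThreeAPFree (A : Set ℕ) →
      A ⊆ range (b ^ n) →
      (b : ℝ) ^ n * Real.exp (-(Λ * √n)) ≤ A.card →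
      ∀ C : Circ w n (Fin b), Nat.card C.Node + n ≤ 2 ^ ℓ → (∀ v, C.depth v ≤ d) →
      (ℓ : ℝ) ^ (2 * (d + 1)) ≤ c * n → ∀ (o : C.Node) (F : Finset ℕ),
      (∀ a, a ∈ F ↔ ∃ x, C.val o x = true ∧ num x = a) →
      ((A ∩ F).card : ℝ) ≤ ε * max (A.card : ℝ) F.card := by
  haveI : NeZero b := ⟨by omega⟩
  have hb0 : (0 : ℝ) < b := by
    have : 0 < b := by omega
    exact_mod_cast this
  -- the size of the blocks
  obtain ⟨m, hm1, hm⟩ : ∃ m : ℕ, 1 ≤ m ∧ (rothNumberNat (b ^ m) : ℝ) ≤ ε / 3 * (b : ℝ) ^ m := by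
    have h := rothNumberNat_isLittleO_id.def (show (0 : ℝ) < ε / 3 by positivity)
    rw [Filter.eventually_atTop] at h
    obtain ⟨N, hN⟩ := h
    refine ⟨N + 1, by omega, ?_⟩
    have h1 : N ≤ b ^ (N + 1) := by
      have h2 : N + 1 < b ^ (N + 1) := Nat.lt_pow_self (by omega)
      omega
    have := hN _ h1
    simp only [Real.norm_natCast, id] at this
    push_cast at this
    exact this
  set q : ℝ := (b : ℝ) with hq
  set η : ℝ := ε / (6 * m * q ^ (m + 1)) with hη
  have hm0 : (0 : ℝ) < m := by exact_mod_cast hm1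
  have hη0 : 0 < η := by positivity
  set B : ℝ := ((2 : ℝ) ^ (d + 10) * w) ^ (d + 1) with hB
  have hw0 : (0 : ℝ) < w := by exact_mod_cast hw
  have hB0 : 0 < B := by positivity
  have hl2 : 0 < Real.log 2 := Real.log_pos (by norm_num)
  set R : ℝ := 6 + (Λ + |Real.log η|) / Real.log 2 with hR
  have hR0 : 0 < R := by positivity
  set r : ℝ := η / ((d + 1) * B * R) with hr
  have hr0 : 0 < r := by positivity
  refine ⟨min (min 1 (1 / m)) (r ^ 2), by positivity, ?_⟩
  intro n ℓ A hn hA hAn hAc C hs hd hℓc o F hF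
  set c : ℝ := min (min 1 (1 / (m : ℝ))) (r ^ 2) with hc
  have hc1 : c ≤ 1 := (min_le_left _ _).trans (min_le_left _ _)
  have hcm : c ≤ 1 / m := (min_le_left _ _).trans (min_le_right _ _)
  have hcr : c ≤ r ^ 2 := min_le_right _ _
  have hc0 : 0 < c := by positivity
  have hn0 : (1 : ℝ) ≤ n := by exact_mod_cast hn
  have hℓ : 1 ≤ ℓ := by
    rcases Nat.eq_zero_or_pos ℓ with h | h
    · exfalso
      rw [h, pow_zero] at hs
      haveI := C.finite
      haveI : Nonempty C.Node := ⟨o⟩
      have h1 : 0 < Nat.card C.Node := Nat.card_pos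
      omega
    · exact h
  have hℓ1 : (1 : ℝ) ≤ ℓ := by exact_mod_cast hℓ
  have hcn : 1 ≤ c * n := (one_le_pow₀ hℓ1).trans hℓc
  have hmn : m ≤ n := by
    have : (m : ℝ) ≤ n := by
      have h1 : c * n ≤ 1 / m * n := mul_le_mul_of_nonneg_right hcm (by linarith)
      have h2 : 1 ≤ 1 / (m : ℝ) * n := hcn.trans h1
      rw [one_div_mul_eq_div, le_div_iff₀ hm0, one_mul] at h2
      exact h2
    exact_mod_cast this
  set M := n / m with hM
  have hM1 : 1 ≤ M := (Nat.one_le_div_iff (by omega)).2 hmn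
  have hM0 : (0 : ℝ) < M := by exact_mod_cast hM1
  have hnM : (n : ℝ) / M ≤ 2 * m := by
    rw [div_le_iff₀ hM0]
    have h1 : n < m * (M + 1) := Nat.lt_mul_div_succ n (by omega)
    have h2 : n ≤ 2 * m * M := by nlinarith
    exact_mod_cast h2
  set A' := univ.filter fun z : Fin n → Fin b => num z ∈ A with hA'
  have hcos : ∀ (a : Fin (n / m)) (x : Fin n → Fin b),
      ((A'.filter fun z => z ∈ coset (block m a) x).card : ℝ) ≤
        ε / 3 * (Fintype.card (Fin b) : ℝ) ^ m := by
    intro a x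
    have h1 := coset_roth A hA (by omega : 0 < b) m a x
    have h2 : ((A'.filter fun z => z ∈ coset (block m a) x).card : ℝ) ≤
      rothNumberNat (b ^ m) := by exact_mod_cast h1
    rw [Fintype.card_fin]
    exact h2.trans hm
  have hB' := theoremB C hℓ hs hd o (κ := η * n) (by positivity) hM1 (block m)
    (card_block m) (block_disjoint m) A' (ε / 3) hcos
  rw [Fintype.card_fin, ← hq] at hB'
  -- translation to integers
  have e1 : (univ.filter fun x : Fin n → Fin b => C.val o x = true).card = F.card := by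
    apply card_bij fun x _ => num x
    · intro x hx
      rw [mem_filter] at hx
      exact (hF _).2 ⟨x, hx.2, rfl⟩
    · intro x _ y _ h
      exact num_inj h
    · intro a ha
      obtain ⟨x, hx, hxa⟩ := (hF a).1 ha
      exact ⟨x, by rw [mem_filter]; exact ⟨mem_univ _, hx⟩, hxa⟩
  have e2 : (A'.filter fun x => C.val o x = true).card = (A ∩ F).card := by
    apply card_bij fun x _ => num x
    · intro x hx
      rw [mem_filter, hA', mem_filter] at hx
      rw [mem_inter]
      exact ⟨hx.1.2, (hF _).2 ⟨x, hx.2, rfl⟩⟩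
    · intro x _ y _ h
      exact num_inj h
    · intro a ha
      rw [mem_inter] at ha
      obtain ⟨x, hx, hxa⟩ := (hF a).1 ha.2
      refine ⟨x, ?_, hxa⟩
      rw [mem_filter, hA', mem_filter, hxa]
      exact ⟨⟨mem_univ _, ha.1⟩, hx⟩
  rw [e1, e2] at hB'
  -- the tail
  have htau : tau w ℓ d (η * n) ≤ η * Real.exp (-(Λ * √n)) := by
    have hsq : √(n : ℝ) * √(n : ℝ) = n := Real.mul_self_sqrt (by linarith)
    have hsn : 1 ≤ √(n : ℝ) := Real.one_le_sqrt.2 hn0
    have hpow : (ℓ : ℝ) ^ (d + 1) ≤ r * √n := by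
      have h1 : ((ℓ : ℝ) ^ (d + 1)) ^ 2 ≤ (r * √n) ^ 2 := by
        rw [← pow_mul, mul_comm (d + 1) 2]
        refine hℓc.trans ?_
        rw [mul_pow, Real.sq_sqrt (by linarith)]
        exact mul_le_mul_of_nonneg_right hcr (by linarith)
      exact (pow_le_pow_iff_left₀ (by positivity) (by positivity) two_ne_zero).1 h1
    have hpow' : (ℓ : ℝ) ≤ √n := by
      have h1 : (ℓ : ℝ) ^ (2 * (d + 1)) ≤ n := hℓc.trans (by nlinarith)
      have h2 : (ℓ : ℝ) ^ 2 ≤ (ℓ : ℝ) ^ (2 * (d + 1)) := pow_le_pow_right₀ hℓ1 (by omega)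
      exact Real.le_sqrt_of_sq_le (h2.trans h1)
    have hKK : (Y347.CO.KK (d + 1) (max w 1) ℓ : ℝ) = B * (ℓ : ℝ) ^ (d + 1) := by
      rw [Y347.CO.KK, max_eq_left hw, hB, ← mul_pow]
      push_cast
      have e10 : d + 1 + 9 = d + 10 := by ring
      rw [e10]
      ring
    have hmain : R * √n ≤ η * n / (((d + 1 : ℕ) : ℝ) * Y347.CO.KK (d + 1) (max w 1) ℓ) := by
      rw [hKK, le_div_iff₀ (by positivity)]
      push_cast
      calc R * √n * ((d + 1) * (B * (ℓ : ℝ) ^ (d + 1)))
          ≤ R * √n * ((d + 1) * (B * (r * √n))) := by gcongr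
        _ = R * ((d + 1) * B) * r * (√n * √n) := by ring
        _ = η * n := by
            rw [hsq, hr]
            field_simp
    have hexp : 2 * (ℓ : ℝ) + 4 - η * n / (((d + 1 : ℕ) : ℝ) * Y347.CO.KK (d + 1) (max w 1) ℓ) ≤
        -((Λ + |Real.log η|) / Real.log 2) * √n := by
      have : 2 * (ℓ : ℝ) + 4 ≤ 6 * √n := by linarith
      have h3 : R * √n = 6 * √n + (Λ + |Real.log η|) / Real.log 2 * √n := by
        rw [hR]
        ring
      linarith
    have h4 : tau w ℓ d (η * n) ≤ (2 : ℝ) ^ (-((Λ + |Real.log η|) / Real.log 2) * √n) := by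
      rw [tau]
      exact Real.rpow_le_rpow_of_exponent_le (by norm_num) hexp
    refine h4.trans ?_
    rw [Real.rpow_def_of_pos (by norm_num)]
    have e3 : Real.log 2 * (-((Λ + |Real.log η|) / Real.log 2) * √n) =
        -(|Real.log η| * √n) + -(Λ * √n) := by
      field_simp
      ring
    rw [e3, Real.exp_add]
    refine mul_le_mul_of_nonneg_right ?_ (Real.exp_pos _).le
    calc Real.exp (-(|Real.log η| * √n)) ≤ Real.exp (Real.log η) := by
          apply Real.exp_le_exp.2
          have h5 : |Real.log η| ≤ |Real.log η| * √n := le_mul_of_one_le_right (abs_nonneg _) hsn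
          have h6 := neg_abs_le (Real.log η)
          linarith
      _ = η := Real.exp_log hη0
  -- conclusion
  have hFc : (0 : ℝ) ≤ F.card := Nat.cast_nonneg _
  have hAc0 : (0 : ℝ) ≤ A.card := Nat.cast_nonneg _
  have hηq : q ^ (m + 1) * (2 * m) * η = ε / 3 := by
    rw [hη]
    field_simp
    ring
  have h7 : q ^ (m + 1) * (η * n) / M ≤ ε / 3 := by
    calc q ^ (m + 1) * (η * n) / M = q ^ (m + 1) * (n / M) * η := by ring
      _ ≤ q ^ (m + 1) * (2 * m) * η := by gcongr
      _ = _ := hηq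
  have h8 : q ^ (m + 1) * n / M * q ^ n * tau w ℓ d (η * n) ≤ ε / 3 * A.card := by
    calc q ^ (m + 1) * n / M * q ^ n * tau w ℓ d (η * n)
        = q ^ (m + 1) * (n / M) * (q ^ n * tau w ℓ d (η * n)) := by ring
      _ ≤ q ^ (m + 1) * (2 * m) * (q ^ n * tau w ℓ d (η * n)) :=
          mul_le_mul_of_nonneg_right (mul_le_mul_of_nonneg_left hnM (by positivity))
            (mul_nonneg (by positivity) (tau_pos _ _ _ _).le)
      _ ≤ q ^ (m + 1) * (2 * m) * (q ^ n * (η * Real.exp (-(Λ * √n)))) :=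
          mul_le_mul_of_nonneg_left (mul_le_mul_of_nonneg_left htau (by positivity))
            (by positivity)
      _ = (q ^ (m + 1) * (2 * m) * η) * (q ^ n * Real.exp (-(Λ * √n))) := by ring
      _ = ε / 3 * (q ^ n * Real.exp (-(Λ * √n))) := by rw [hηq]
      _ ≤ _ := mul_le_mul_of_nonneg_left hAc (by positivity)
  have h9 : (ε / 3 + q ^ (m + 1) * (η * n) / M) * (F.card : ℝ) ≤ (ε / 3 + ε / 3) * F.card :=
    mul_le_mul_of_nonneg_right (by linarith) hFc
  have h10 : (F.card : ℝ) ≤ max (A.card : ℝ) F.card := le_max_right _ _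
  have h11 : (A.card : ℝ) ≤ max (A.card : ℝ) F.card := le_max_left _ _
  nlinarith

end Pool.Agent.R740.AC
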