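import Pool.Agent.R740.AC.Base

set_option autoImplicit false

/-!
# Sets decided by circuits of constant depth over a finite alphabet
-/

namespace Pool.Agent.R740.AC

open Finset Function

section
variable {n : ℕ} {α : Type} [Fintype α] [DecidableEq α]

/-- the letters that lead out of the set at the coordinate `i` -/
def esc (f : (Fin n → α) → Bool) (x : Fin n → α) (i : Fin n) : Finset α :=
  univ.filter fun c => f (update x i c) ≠ f x

theorem sum_coord (g : α → ℕ) (i : Fin n) :
    Fintype.card α * ∑ y : Fin n → α, g (y i) = Fintype.card α ^ n * ∑ c, g c := by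
  classical
  have e1 : ∑ y : Fin n → α, g (y i) = ∑ z : α × ({j // j ≠ i} → α), g z.1 :=
    Fintype.sum_equiv (Equiv.funSplitAt i α) _ _ fun y => rfl
  have e2 : ∑ z : α × ({j // j ≠ i} → α), g z.1 =
      Fintype.card ({j // j ≠ i} → α) * ∑ c, g c := by
    rw [Fintype.sum_prod_type]
    simp only [sum_const, card_univ, smul_eq_mul]
    rw [← mul_sum]
  have e3 : Fintype.card α ^ n = Fintype.card α * Fintype.card ({j // j ≠ i} → α) := by
    have := Fintype.card_congr (Equiv.funSplitAt i α)
    rw [Fintype.card_prod, Fintype.card_fun, Fintype.card_fin] at this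
    exact this
  rw [e1, e2, e3]
  ring

theorem sum_sns (f : (Fin n → α) → Bool) (x : Fin n → α) :
    Fintype.card α * ∑ y : Fin n → α, (sns f x y).card =
      Fintype.card α ^ n * ∑ i, (esc f x i).card := by
  have e1 : ∀ y : Fin n → α, (sns f x y).card =
      ∑ i, if f (update x i (y i)) ≠ f x then 1 else 0 := fun y => by
    rw [sns, card_filter]
  have e2 : ∀ i, (esc f x i).card = ∑ c, if f (update x i c) ≠ f x then 1 else 0 := fun i => by
    rw [esc, card_filter]
  simp only [e1, e2]
  rw [sum_comm, mul_sum, mul_sum]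
  exact sum_congr rfl fun i _ => sum_coord (fun c => if f (update x i c) ≠ f x then 1 else 0) i

variable {w : ℕ}

/-- the edge boundary of a set decided by a small circuit is small -/
theorem boundary [Nonempty α] (C : Circ w n α) {ℓ d : ℕ} (hℓ : 1 ≤ ℓ)
    (hs : Nat.card C.Node + n ≤ 2 ^ ℓ) (hd : ∀ v, C.depth v ≤ d) (o : C.Node) {κ : ℝ}
    (hκ : 0 ≤ κ) (F : Finset (Fin n → α)) :
    ((∑ x ∈ F, ∑ i, (esc (C.val o) x i).card : ℕ) : ℝ) ≤
      Fintype.card α * (κ * F.card + n * (Fintype.card α : ℝ) ^ n * tau w ℓ d κ) := by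
  classical
  set f := C.val o with hf
  set q : ℝ := ((Fintype.card α : ℕ) : ℝ) with hq
  have hq0 : 0 < q := by
    rw [hq]
    exact_mod_cast Fintype.card_pos
  have hT := tail C hℓ hs hd o κ
  rw [← hq, ← hf] at hT
  set T := univ.filter fun z : (Fin n → α) × (Fin n → α) => κ ≤ ((sns f z.1 z.2).card : ℝ) with hTdef
  -- upper bound
  have h1 : ((∑ x ∈ F, ∑ y : Fin n → α, (sns f x y).card : ℕ) : ℝ) ≤
      κ * F.card * q ^ n + n * T.card := by
    rw [Nat.cast_sum]
    have h2 : ∀ x ∈ F, ((∑ y : Fin n → α, (sns f x y).card : ℕ) : ℝ) ≤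
        ∑ y : Fin n → α, (κ + if (x, y) ∈ T then (n : ℝ) else 0) := by
      intro x _
      push_cast
      refine sum_le_sum fun y _ => ?_
      split_ifs with h
      · have : ((sns f x y).card : ℝ) ≤ n := by exact_mod_cast sns_card_le f x y
        linarith
      · rw [hTdef, mem_filter, not_and, not_le] at h
        have := h (mem_univ _)
        simp only [add_zero]
        exact this.le
    refine (sum_le_sum h2).trans ?_
    simp only [sum_add_distrib, sum_const, card_univ, Fintype.card_fun, Fintype.card_fin,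
      nsmul_eq_mul]
    have h3 : ∑ x ∈ F, ∑ y : Fin n → α, (if (x, y) ∈ T then (n : ℝ) else 0) ≤ n * T.card := by
      calc ∑ x ∈ F, ∑ y : Fin n → α, (if (x, y) ∈ T then (n : ℝ) else 0)
          ≤ ∑ x : Fin n → α, ∑ y : Fin n → α, (if (x, y) ∈ T then (n : ℝ) else 0) := by
            refine sum_le_sum_of_subset_of_nonneg (subset_univ _) fun x _ _ => ?_
            refine sum_nonneg fun y _ => ?_
            split_ifs
            · exact Nat.cast_nonneg _
            · exact le_rfl
        _ = ∑ z : (Fin n → α) × (Fin n → α), (if z ∈ T then (n : ℝ) else 0) := by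
            rw [Fintype.sum_prod_type]
        _ = n * T.card := by
            rw [← sum_filter, sum_const, filter_mem_eq_inter, univ_inter, nsmul_eq_mul, mul_comm]
    push_cast
    rw [← hq]
    linarith [mul_comm (q ^ n) κ, mul_assoc κ (F.card : ℝ) (q ^ n),
      mul_comm (F.card : ℝ) (q ^ n * κ), mul_assoc κ (q ^ n) (F.card : ℝ),
      mul_comm (F.card : ℝ) (q ^ n)]
  have h4 : q * ((∑ x ∈ F, ∑ y : Fin n → α, (sns f x y).card : ℕ) : ℝ) =
      q ^ n * ((∑ x ∈ F, ∑ i, (esc f x i).card : ℕ) : ℝ) := by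
    have : Fintype.card α * ∑ x ∈ F, ∑ y : Fin n → α, (sns f x y).card =
        Fintype.card α ^ n * ∑ x ∈ F, ∑ i, (esc f x i).card := by
      rw [mul_sum, mul_sum]
      exact sum_congr rfl fun x _ => sum_sns f x
    rw [hq]
    exact_mod_cast this
  have hqn : 0 < q ^ n := by positivity
  have h5 : (n : ℝ) * T.card ≤ n * (q ^ n * q ^ n * tau w ℓ d κ) :=
    mul_le_mul_of_nonneg_left hT (Nat.cast_nonneg _)
  have h6 : q ^ n * ((∑ x ∈ F, ∑ i, (esc f x i).card : ℕ) : ℝ) ≤
      q ^ n * (q * (κ * F.card + n * q ^ n * tau w ℓ d κ)) := by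
    rw [← h4]
    have := mul_le_mul_of_nonneg_left (h1.trans (add_le_add_right h5 _)) hq0.le
    calc q * ((∑ x ∈ F, ∑ y : Fin n → α, (sns f x y).card : ℕ) : ℝ) ≤ _ := this
      _ = _ := by ring
  exact le_of_mul_le_mul_left h6 hqn

/-- **Theorem A**: a set decided by a small circuit, no member of which has a full line in an axis
direction, is small. -/
theorem theoremA [Nonempty α] (C : Circ w n α) {ℓ d : ℕ} (hℓ : 1 ≤ ℓ) (hn : 1 ≤ n)
    (hs : Nat.card C.Node + n ≤ 2 ^ ℓ) (hd : ∀ v, C.depth v ≤ d) (o : C.Node)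
    (hfree : ∀ x, C.val o x = true → ∀ i, ∃ c, C.val o (update x i c) = false) :
    ((univ.filter fun x : Fin n → α => C.val o x = true).card : ℝ) ≤
      2 * Fintype.card α * (Fintype.card α : ℝ) ^ n *
        tau w ℓ d (n / (2 * Fintype.card α)) := by
  classical
  set F := univ.filter fun x : Fin n → α => C.val o x = true with hF
  set q : ℝ := ((Fintype.card α : ℕ) : ℝ) with hq
  have hq0 : 0 < q := by
    rw [hq]
    exact_mod_cast Fintype.card_pos
  have hn' : (0 : ℝ) < n := by exact_mod_cast hn
  have h1 := boundary C hℓ hs hd o (κ := n / (2 * q)) (by positivity) F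
  have h2 : ((F.card * n : ℕ) : ℝ) ≤ ((∑ x ∈ F, ∑ i, (esc (C.val o) x i).card : ℕ) : ℝ) := by
    have : F.card * n ≤ ∑ x ∈ F, ∑ i, (esc (C.val o) x i).card := by
      rw [← smul_eq_mul, ← sum_const]
      refine sum_le_sum fun x hx => ?_
      rw [hF, mem_filter] at hx
      calc n = ∑ _i : Fin n, 1 := by rw [sum_const, card_univ, Fintype.card_fin, smul_eq_mul,
            mul_one]
        _ ≤ _ := sum_le_sum fun i _ => by
            rw [Nat.one_le_iff_ne_zero, ← Nat.pos_iff_ne_zero, card_pos]
            obtain ⟨c, hc⟩ := hfree x hx.2 i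
            refine ⟨c, ?_⟩
            rw [esc, mem_filter]
            refine ⟨mem_univ _, ?_⟩
            rw [hc, hx.2]
            exact Bool.false_ne_true
    exact_mod_cast this
  rw [← hq] at h1
  push_cast at h2
  have h3 := h2.trans (by push_cast at h1; exact h1)
  have h4 : q * (n / (2 * q) * F.card + n * q ^ n * tau w ℓ d (n / (2 * q))) =
      n * (F.card / 2 + q * q ^ n * tau w ℓ d (n / (2 * q))) := by
    field_simp
  rw [h4, mul_comm] at h3
  have h5 := le_of_mul_le_mul_left h3 hn'
  linarith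

end

end Pool.Agent.R740.AC
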