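import Pool.Agent.R740.AC.Main

set_option autoImplicit false

/-!
# The relative theorem
-/

namespace Pool.Agent.R740.AC

open Finset Function

section
variable {n : ℕ} {α : Type} [Fintype α] [DecidableEq α]

/-- the words that agree with `x` outside `J` -/
def coset (J : Finset (Fin n)) (x : Fin n → α) : Finset (Fin n → α) :=
  univ.filter fun z => ∀ i, i ∉ J → z i = x i

theorem mem_coset {J : Finset (Fin n)} {x z : Fin n → α} :
    z ∈ coset J x ↔ ∀ i, i ∉ J → z i = x i := by
  simp [coset]

theorem coset_symm {J : Finset (Fin n)} {x z : Fin n → α} (h : z ∈ coset J x) : x ∈ coset J z := by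
  rw [mem_coset] at h ⊢
  exact fun i hi => (h i hi).symm

theorem coset_trans {J : Finset (Fin n)} {x y z : Fin n → α} (h : z ∈ coset J y)
    (h' : y ∈ coset J x) : z ∈ coset J x := by
  rw [mem_coset] at h h' ⊢
  exact fun i hi => (h i hi).trans (h' i hi)

theorem card_coset (J : Finset (Fin n)) (x : Fin n → α) :
    (coset J x).card = Fintype.card α ^ J.card := by
  classical
  have h : coset J x = Fintype.piFinset fun i => if i ∈ J then univ else {x i} := by
    ext z
    rw [mem_coset, Fintype.mem_piFinset]
    constructor
    · intro h i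
      split_ifs with hi
      · exact mem_univ _
      · rw [mem_singleton]
        exact h i hi
    · intro h i hi
      have := h i
      rw [if_neg hi, mem_singleton] at this
      exact this
  rw [h, Fintype.card_piFinset]
  have h2 : ∀ i, (if i ∈ J then (univ : Finset α) else {x i}).card =
      if i ∈ J then Fintype.card α else 1 := by
    intro i
    split_ifs
    · rw [card_univ]
    · rw [card_singleton]
  rw [prod_congr rfl fun i _ => h2 i, prod_ite_mem, univ_inter, prod_const]

variable (f : (Fin n → α) → Bool)

/-- the set decided by `f` -/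
def dec : Finset (Fin n → α) := univ.filter fun x => f x = true

theorem mem_dec {x : Fin n → α} : x ∈ dec f ↔ f x = true := by
  simp [dec]

open Classical in
/-- the members of the set whose coset is not contained in the set -/
noncomputable def bad (J : Finset (Fin n)) : Finset (Fin n → α) :=
  (dec f).filter fun x => ∃ z ∈ coset J x, z ∉ dec f

theorem bad_card (J : Finset (Fin n)) :
    (bad f J).card ≤ Fintype.card α ^ J.card * ∑ i ∈ J, ∑ x ∈ dec f, (esc f x i).card := by
  classical
  induction J using Finset.induction_on with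
  | empty =>
    have : bad f ∅ = ∅ := by
      rw [bad, filter_eq_empty_iff]
      rintro x hx ⟨z, hz, hz'⟩
      apply hz'
      have : z = x := funext fun i => mem_coset.1 hz i (notMem_empty i)
      rw [this]
      exact hx
    rw [this]
    simp
  | insert i J hi ih =>
    set e := ∑ x ∈ dec f, (esc f x i).card with he
    set E : Finset ((_ : Fin n → α) × α) := (dec f).sigma fun y => esc f y i with hE
    have hEc : E.card = e := by rw [hE, card_sigma]
    have hsub : bad f (insert i J) ⊆ bad f J ∪ E.biUnion fun p => coset J p.1 := by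
      intro x hx
      rw [bad, mem_filter] at hx
      obtain ⟨hxF, z, hz, hzF⟩ := hx
      rw [mem_union]
      by_cases hb : x ∈ bad f J
      · exact Or.inl hb
      · right
        have hb' : ∀ z ∈ coset J x, z ∈ dec f := by
          intro z hz
          by_contra hcon
          exact hb (by rw [bad, mem_filter]; exact ⟨hxF, z, hz, hcon⟩)
        have hz' : update z i (x i) ∈ coset J x := by
          rw [mem_coset]
          intro j hj
          rcases eq_or_ne j i with rfl | hji
          · rw [update_self]
          · rw [update_of_ne hji]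
            refine mem_coset.1 hz j ?_
            rw [mem_insert, not_or]
            exact ⟨hji, hj⟩
        rw [mem_biUnion]
        refine ⟨⟨update z i (x i), z i⟩, ?_, coset_symm hz'⟩
        rw [hE, mem_sigma]
        have h1 := hb' _ hz'
        refine ⟨h1, ?_⟩
        rw [esc, mem_filter]
        refine ⟨mem_univ _, ?_⟩
        rw [mem_dec] at h1 hzF
        show f (update (update z i (x i)) i (z i)) ≠ f (update z i (x i))
        rw [update_idem, update_eq_self, h1]
        exact hzF
    have hcard : (E.biUnion fun p => coset J p.1).card ≤ e * Fintype.card α ^ J.card := by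
      rw [← hEc]
      exact card_biUnion_le_card_mul _ _ _ fun p _ => (card_coset J p.1).le
    rw [card_insert_of_notMem hi, sum_insert hi]
    have hq : 1 ≤ Fintype.card α ∨ e = 0 := by
      rcases Nat.eq_zero_or_pos (Fintype.card α) with h | h
      · right
        rw [he]
        refine sum_eq_zero fun x _ => ?_
        haveI := Fintype.card_eq_zero_iff.1 h
        rw [esc, card_eq_zero]
        exact eq_empty_of_isEmpty _
      · exact Or.inl h
    have h3 := (card_le_card hsub).trans (card_union_le _ _)
    have hS : ∀ j ∈ J, 1 ≤ Fintype.card α ∨ (∑ x ∈ dec f, (esc f x j).card) = 0 := by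
      intro j _
      rcases Nat.eq_zero_or_pos (Fintype.card α) with h | h
      · right
        refine sum_eq_zero fun x _ => ?_
        haveI := Fintype.card_eq_zero_iff.1 h
        rw [esc, card_eq_zero]
        exact eq_empty_of_isEmpty _
      · exact Or.inl h
    rcases Nat.eq_zero_or_pos (Fintype.card α) with h | h
    · haveI := Fintype.card_eq_zero_iff.1 h
      haveI : IsEmpty (Fin n → α) := ⟨fun x => isEmptyElim (x i)⟩
      have : bad f (insert i J) = ∅ := eq_empty_of_isEmpty _
      rw [this]
      simp
    · have h4 : Fintype.card α ^ J.card ≤ Fintype.card α ^ (J.card + 1) :=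
        Nat.pow_le_pow_right h (Nat.le_succ _)
      calc (bad f (insert i J)).card ≤ _ := h3
        _ ≤ Fintype.card α ^ J.card * (∑ j ∈ J, ∑ x ∈ dec f, (esc f x j).card) +
            e * Fintype.card α ^ J.card := Nat.add_le_add ih hcard
        _ = Fintype.card α ^ J.card * (e + ∑ j ∈ J, ∑ x ∈ dec f, (esc f x j).card) := by ring
        _ ≤ _ := Nat.mul_le_mul_right _ h4

open Classical in
/-- counting on the good part -/
theorem good_card (A : Finset (Fin n → α)) (J : Finset (Fin n)) (ρ : ℝ) (hα : 0 < Fintype.card α)
    (hA : ∀ x, ((A.filter fun z => z ∈ coset J x).card : ℝ) ≤ ρ * (Fintype.card α : ℝ) ^ J.card) :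
    ((A.filter fun x => x ∈ dec f).card : ℝ) ≤ ρ * (dec f).card + (bad f J).card := by
  set G := (dec f).filter fun x => ∀ z ∈ coset J x, z ∈ dec f with hG
  have hρ : 0 ≤ ρ ∨ IsEmpty (Fin n → α) := by
    by_cases h : IsEmpty (Fin n → α)
    · exact Or.inr h
    · left
      rw [not_isEmpty_iff] at h
      have h1 := hA h.some
      by_contra hcon
      push Not at hcon
      have h2 : (0 : ℝ) < (Fintype.card α : ℝ) ^ J.card := by
        have : (0 : ℝ) < Fintype.card α := by exact_mod_cast hα
        positivity
      have h3 : (0 : ℝ) ≤ ((A.filter fun z => z ∈ coset J h.some).card : ℝ) := Nat.cast_nonneg _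
      nlinarith
  rcases hρ with hρ | hemp
  swap
  · have e1 : A.filter (fun x => x ∈ dec f) = ∅ := eq_empty_of_isEmpty _
    have e2 : dec f = ∅ := eq_empty_of_isEmpty _
    have e3 : bad f J = ∅ := eq_empty_of_isEmpty _
    rw [e1, e2, e3]
    simp
  -- the good part
  have hgood : (((A.filter fun x => x ∈ G).card : ℕ) : ℝ) ≤ ρ * G.card := by
    have h1 : (A.filter fun x => x ∈ G).card * Fintype.card α ^ J.card ≤
        ∑ x ∈ G, (A.filter fun z => z ∈ coset J x).card := by
      calc (A.filter fun x => x ∈ G).card * Fintype.card α ^ J.card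
          = ∑ z ∈ A.filter (fun x => x ∈ G), (coset J z).card := by
            rw [sum_congr rfl fun z _ => card_coset J z, sum_const, smul_eq_mul]
        _ = ∑ z ∈ A.filter (fun x => x ∈ G), (G.filter fun x => z ∈ coset J x).card := by
            refine sum_congr rfl fun z hz => ?_
            congr 1
            ext x
            rw [mem_filter]
            constructor
            · intro hx
              refine ⟨?_, coset_symm hx⟩
              rw [mem_filter, hG, mem_filter] at hz
              obtain ⟨_, _, hz⟩ := hz
              rw [hG, mem_filter]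
              exact ⟨hz x hx, fun y hy => hz y (coset_trans hy hx)⟩
            · rintro ⟨_, hx⟩
              exact coset_symm hx
        _ = ∑ x ∈ G, ((A.filter fun x => x ∈ G).filter fun z => z ∈ coset J x).card := by
            have := sum_card_bipartiteAbove_eq_sum_card_bipartiteBelow
              (s := A.filter fun x => x ∈ G) (t := G) (fun z x => z ∈ coset J x)
            exact this
        _ ≤ _ := sum_le_sum fun x _ => card_le_card fun z hz => by
            rw [mem_filter, mem_filter] at hz
            rw [mem_filter]
            exact ⟨hz.1.1, hz.2⟩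
    have h2 : ((∑ x ∈ G, (A.filter fun z => z ∈ coset J x).card : ℕ) : ℝ) ≤
        G.card * (ρ * (Fintype.card α : ℝ) ^ J.card) := by
      rw [Nat.cast_sum, ← nsmul_eq_mul, ← sum_const]
      exact sum_le_sum fun x _ => hA x
    have h3 : (((A.filter fun x => x ∈ G).card : ℕ) : ℝ) * (Fintype.card α : ℝ) ^ J.card ≤
        (ρ * G.card) * (Fintype.card α : ℝ) ^ J.card := by
      have : (((A.filter fun x => x ∈ G).card : ℕ) : ℝ) * (Fintype.card α : ℝ) ^ J.card ≤
          ((∑ x ∈ G, (A.filter fun z => z ∈ coset J x).card : ℕ) : ℝ) := by exact_mod_cast h1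
      refine this.trans (h2.trans_eq ?_)
      ring
    have h4 : (0 : ℝ) < (Fintype.card α : ℝ) ^ J.card := by
      have : (0 : ℝ) < Fintype.card α := by exact_mod_cast hα
      positivity
    exact le_of_mul_le_mul_right h3 h4
  have hsplit : (A.filter fun x => x ∈ dec f).card ≤
      (A.filter fun x => x ∈ G).card + (bad f J).card := by
    refine (card_le_card ?_).trans (card_union_le _ _)
    intro x hx
    rw [mem_filter] at hx
    rw [mem_union]
    by_cases h : ∀ z ∈ coset J x, z ∈ dec f
    · left
      rw [mem_filter, hG, mem_filter]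
      exact ⟨hx.1, hx.2, h⟩
    · right
      push Not at h
      rw [bad, mem_filter]
      exact ⟨hx.2, h⟩
  have hGle : (G.card : ℝ) ≤ (dec f).card := by exact_mod_cast card_le_card (filter_subset _ _)
  have h5 : ((A.filter fun x => x ∈ dec f).card : ℝ) ≤
      (A.filter fun x => x ∈ G).card + (bad f J).card := by exact_mod_cast hsplit
  have h6 := mul_le_mul_of_nonneg_left hGle hρ
  linarith

end

section
variable {n : ℕ} {α : Type} [Fintype α] [DecidableEq α] {w : ℕ}

open Classical in
/-- **Theorem B**: relative density on a set decided by a small circuit. -/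
theorem theoremB [Nonempty α] (C : Circ w n α) {ℓ d : ℕ} (hℓ : 1 ≤ ℓ)
    (hs : Nat.card C.Node + n ≤ 2 ^ ℓ) (hd : ∀ v, C.depth v ≤ d) (o : C.Node) {κ : ℝ}
    (hκ : 0 ≤ κ) {m M : ℕ} (hM : 1 ≤ M) (J : Fin M → Finset (Fin n))
    (hJ : ∀ a, (J a).card = m) (hdis : ∀ a b, a ≠ b → Disjoint (J a) (J b))
    (A : Finset (Fin n → α)) (ρ : ℝ)
    (hA : ∀ a x, ((A.filter fun z => z ∈ coset (J a) x).card : ℝ) ≤
      ρ * (Fintype.card α : ℝ) ^ m) :
    ((A.filter fun x => C.val o x = true).card : ℝ) ≤
      (ρ + (Fintype.card α : ℝ) ^ (m + 1) * κ / M) *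
          (univ.filter fun x : Fin n → α => C.val o x = true).card +
        (Fintype.card α : ℝ) ^ (m + 1) * n / M * (Fintype.card α : ℝ) ^ n * tau w ℓ d κ := by
  set f := C.val o with hf
  have hα : 0 < Fintype.card α := Fintype.card_pos
  have hM' : (0 : ℝ) < M := by exact_mod_cast hM
  have h1 := boundary C hℓ hs hd o hκ (dec f)
  rw [← hf] at h1
  have h2 : ∑ a, (bad f (J a)).card ≤
      Fintype.card α ^ m * ∑ x ∈ dec f, ∑ i, (esc f x i).card := by
    calc ∑ a, (bad f (J a)).card
        ≤ ∑ a, Fintype.card α ^ m * ∑ i ∈ J a, ∑ x ∈ dec f, (esc f x i).card := by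
          refine sum_le_sum fun a _ => ?_
          have := bad_card f (J a)
          rw [hJ a] at this
          exact this
      _ = Fintype.card α ^ m * ∑ i ∈ univ.biUnion J, ∑ x ∈ dec f, (esc f x i).card := by
          rw [← mul_sum, sum_biUnion]
          intro a _ b _ hab
          exact hdis a b hab
      _ ≤ Fintype.card α ^ m * ∑ i, ∑ x ∈ dec f, (esc f x i).card :=
          Nat.mul_le_mul_left _ (sum_le_sum_of_subset (subset_univ _))
      _ = _ := by rw [sum_comm]
  have h3 : ∃ a ∈ (univ : Finset (Fin M)), ((bad f (J a)).card : ℝ) ≤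
      (Fintype.card α : ℝ) ^ m * ((∑ x ∈ dec f, ∑ i, (esc f x i).card : ℕ) : ℝ) / M := by
    apply exists_le_of_sum_le
    · exact ⟨⟨0, hM⟩, mem_univ _⟩
    · rw [sum_const, card_univ, Fintype.card_fin, nsmul_eq_mul, mul_div_cancel₀ _ hM'.ne']
      exact_mod_cast h2
  obtain ⟨a, _, ha⟩ := h3
  have h4 := good_card f A (J a) ρ hα (fun x => by rw [hJ a]; exact hA a x)
  have e1 : (A.filter fun x => x ∈ dec f) = A.filter fun x => f x = true := by
    ext x
    simp only [mem_filter, mem_dec]
  rw [e1] at h4
  have h5 : (Fintype.card α : ℝ) ^ m * ((∑ x ∈ dec f, ∑ i, (esc f x i).card : ℕ) : ℝ) / M ≤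
      (Fintype.card α : ℝ) ^ m * (Fintype.card α * (κ * (dec f).card +
        n * (Fintype.card α : ℝ) ^ n * tau w ℓ d κ)) / M := by
    refine div_le_div_of_nonneg_right ?_ hM'.le
    exact mul_le_mul_of_nonneg_left h1 (by positivity)
  have h6 := h4.trans (add_le_add_right (ha.trans h5) _)
  refine h6.trans_eq ?_
  show _ = (ρ + (Fintype.card α : ℝ) ^ (m + 1) * κ / M) * ((dec f).card : ℝ) + _
  rw [pow_succ]
  ring

end

end Pool.Agent.R740.AC
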